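-- Pool.Agent.Run7.h860.GM.CLI
import Mathlib
import Pool.Agent.TH507.Defs
import Pool.Agent.Run7.h834.GM.Iface

set_option autoImplicit false

namespace Run7.h860.GM

open SimpleGraph
open Pool.Agent.TH507.Host
open Run7.h834.GM

lemma minor_trans {V W R : Type} {G : SimpleGraph V} {H : SimpleGraph W} {F : SimpleGraph R}
    (h1 : IsMinor F H) (h2 : IsMinor H G) : IsMinor F G := by
  classical
  obtain ⟨A, hA1, hA2, hA3⟩ := h1
  obtain ⟨B, hB1, hB2, hB3⟩ := h2
  let D : R → Set V := fun x => {v | ∃ y ∈ A x, v ∈ B y}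
  refine ⟨D, ?_, ?_, ?_⟩
  · intro x
    have hin : ∀ y ∈ A x, ∀ v ∈ B y, v ∈ D x := fun y hy v hv => ⟨y, hy, hv⟩
    -- inside one branch set
    have hr1 : ∀ y (hy : y ∈ A x) (u v : V) (hu : u ∈ B y) (hv : v ∈ B y),
        (G.induce (D x)).Reachable ⟨u, hin y hy u hu⟩ ⟨v, hin y hy v hv⟩ := by
      intro y hy u v hu hv
      let φ : G.induce (B y) →g G.induce (D x) :=
        { toFun := fun z => ⟨z.1, hin y hy z.1 z.2⟩
          map_rel' := fun {a b} hab => hab }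
      exact ((hB1 y).preconnected ⟨u, hu⟩ ⟨v, hv⟩).map φ
    have hr2 : ∀ y y' : A x, (H.induce (A x)).Reachable y y' →
        ∀ (u v : V) (hu : u ∈ B y) (hv : v ∈ B y'),
        (G.induce (D x)).Reachable ⟨u, hin y y.2 u hu⟩ ⟨v, hin y' y'.2 v hv⟩ := by
      rintro y y' ⟨w⟩
      induction w with
      | @nil a => intro u v hu hv; exact hr1 a a.2 u v hu hv
      | @cons a b c hab w ih =>
        intro u v hu hv
        obtain ⟨s, hs, t, ht, hst⟩ := hB3 a b hab
        have h1 := hr1 a a.2 u s hu hs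
        have h2 : (G.induce (D x)).Adj ⟨s, hin a a.2 s hs⟩ ⟨t, hin b b.2 t ht⟩ := hst
        exact (h1.trans h2.reachable).trans (ih t v ht hv)
    obtain ⟨y0⟩ := (hA1 x).nonempty
    obtain ⟨v0⟩ := (hB1 y0).nonempty
    rw [connected_iff_exists_forall_reachable]
    refine ⟨⟨v0.1, hin _ y0.2 _ v0.2⟩, ?_⟩
    rintro ⟨v, y, hy, hv⟩
    exact hr2 y0 ⟨y, hy⟩ ((hA1 x).preconnected _ _) v0.1 v v0.2 hv
  · intro x y hxy
    rw [Set.disjoint_left]
    rintro v ⟨a, ha, hva⟩ ⟨b, hb, hvb⟩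
    have hab : a ≠ b := by
      rintro rfl
      exact Set.disjoint_left.1 (hA2 x y hxy) ha hb
    exact Set.disjoint_left.1 (hB2 a b hab) hva hvb
  · intro x y hxy
    obtain ⟨a, ha, b, hb, hab⟩ := hA3 x y hxy
    obtain ⟨u, hu, v, hv, huv⟩ := hB3 a b hab
    exact ⟨u, ⟨a, ha, hu⟩, v, ⟨b, hb, hv⟩, huv⟩

theorem t_CLI : S_CLI := by
  classical
  intro F V G k Gs hmax hcop hfree x y x' y' a b hab hyy' h1 h2
  by_contra hcon
  push Not at hcon
  obtain ⟨hne, hnadj⟩ := hcon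
  have hnf := hmax.2 x x' hne hnadj
  apply hnf
  intro H hH hminor
  refine hfree H hH (minor_trans hminor ?_)
  have hin : ∀ w, G.Reachable y w →
      ((w, b) : V × Fin k) ∈ {p : V × Fin k | p = (x, a) ∨ (x = x ∧ p.2 = b ∧ G.Reachable y p.1)} :=
    fun w hw => Or.inr ⟨rfl, rfl, hw⟩
  refine ⟨fun z => {p | p = (z, a) ∨ (z = x ∧ p.2 = b ∧ G.Reachable y p.1)}, ?_, ?_, ?_⟩
  · intro z
    rw [connected_iff_exists_forall_reachable]
    refine ⟨⟨(z, a), Or.inl rfl⟩, ?_⟩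
    rintro ⟨⟨w, c⟩, hp⟩
    by_cases hz : (w, c) = (z, a)
    · cases hz
      exact Reachable.refl _
    · rcases hp with hp | ⟨rfl, rfl, hp⟩
      · exact absurd hp hz
      · change G.Reachable y w at hp
        have key : ∀ (u v : V) (q : G.Walk u v) (hu : G.Reachable y u) (hv : G.Reachable y v),
            (Gs.induce {p : V × Fin k | p = (z, a) ∨ (z = z ∧ p.2 = c ∧ G.Reachable y p.1)}).Reachable
              ⟨(u, c), Or.inr ⟨rfl, rfl, hu⟩⟩ ⟨(v, c), Or.inr ⟨rfl, rfl, hv⟩⟩ := by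
          intro u v q
          induction q with
          | nil => intro hu hv; exact Reachable.refl _
          | @cons u1 u2 u3 hadj q ih =>
            intro hu hv
            have hu2 : G.Reachable y u2 := hu.trans hadj.reachable
            have hA : (Gs.induce {p : V × Fin k | p = (z, a) ∨ (z = z ∧ p.2 = c ∧ G.Reachable y p.1)}).Adj
                ⟨(u1, c), Or.inr ⟨rfl, rfl, hu⟩⟩ ⟨(u2, c), Or.inr ⟨rfl, rfl, hu2⟩⟩ :=
              hcop (show (cop G k).Adj (u1, c) (u2, c) from ⟨rfl, hadj⟩)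
            exact hA.reachable.trans (ih hu2 hv)
        have hB : (Gs.induce {p : V × Fin k | p = (z, a) ∨ (z = z ∧ p.2 = c ∧ G.Reachable y p.1)}).Adj
            ⟨(z, a), Or.inl rfl⟩ ⟨(y, c), Or.inr ⟨rfl, rfl, Reachable.refl _⟩⟩ := h1
        obtain ⟨q⟩ := hp
        exact hB.reachable.trans (key y w q (Reachable.refl _) ⟨q⟩)
  · intro z z' hzz
    rw [Set.disjoint_left]
    rintro ⟨w, c⟩ hp hq
    rcases hp with hp | ⟨hz, hc, -⟩
    · rcases hq with hq | ⟨hz', hc', -⟩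
      · rw [hp] at hq
        exact hzz (congrArg Prod.fst hq)
      · have : c = a := congrArg Prod.snd hp
        exact hab (this.symm.trans hc')
    · rcases hq with hq | ⟨hz', hc', -⟩
      · have : c = a := congrArg Prod.snd hq
        exact hab (this.symm.trans hc)
      · exact hzz (hz.trans hz'.symm)
  · intro u v huv
    rw [SimpleGraph.sup_adj, SimpleGraph.edge_adj] at huv
    rcases huv with huv | ⟨huv, -⟩
    · exact ⟨(u, a), Or.inl rfl, (v, a), Or.inl rfl,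
        hcop (show (cop G k).Adj (u, a) (v, a) from ⟨rfl, huv⟩)⟩
    · rcases huv with ⟨rfl, rfl⟩ | ⟨rfl, rfl⟩
      · exact ⟨(y', b), Or.inr ⟨rfl, rfl, hyy'⟩, (v, a), Or.inl rfl, h2.symm⟩
      · exact ⟨(u, a), Or.inl rfl, (y', b), Or.inr ⟨rfl, rfl, hyy'⟩, h2⟩

end Run7.h860.GM
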