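-- Pool.Agent.Run7.h860.GM.TWN
import Mathlib
import Pool.Agent.TH507.Defs
import Pool.Agent.Run7.h834.GM.Iface

set_option autoImplicit false

namespace Run7.h860.GM.TWN

open SimpleGraph
open Pool.Agent.TH507.Host
open Run7.h834.GM

lemma minor_trans {V W R : Type} {G : SimpleGraph V} {H : SimpleGraph W} {F : SimpleGraph R}
    (h1 : IsMinor F H) (h2 : IsMinor H G) : IsMinor F G := by
  classical
  obtain ⟨A, hA1, hA2, hA3⟩ := h1
  obtain ⟨B, hB1, hB2, hB3⟩ := h2
  let D : R → Set V := fun x => {v | ∃ y ∈ A x, v ∈ B y}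
  refine ⟨D, ?_, ?_, ?_⟩
  · intro x
    have hin : ∀ y ∈ A x, ∀ v ∈ B y, v ∈ D x := fun y hy v hv => ⟨y, hy, hv⟩
    -- inside one branch set
    have hr1 : ∀ y (hy : y ∈ A x) (u v : V) (hu : u ∈ B y) (hv : v ∈ B y),
        (G.induce (D x)).Reachable ⟨u, hin y hy u hu⟩ ⟨v, hin y hy v hv⟩ := by
      intro y hy u v hu hv
      let φ : G.induce (B y) →g G.induce (D x) :=
        { toFun := fun z => ⟨z.1, hin y hy z.1 z.2⟩
          map_rel' := fun {a b} hab => hab }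
      exact ((hB1 y).preconnected ⟨u, hu⟩ ⟨v, hv⟩).map φ
    have hr2 : ∀ y y' : A x, (H.induce (A x)).Reachable y y' →
        ∀ (u v : V) (hu : u ∈ B y) (hv : v ∈ B y'),
        (G.induce (D x)).Reachable ⟨u, hin y y.2 u hu⟩ ⟨v, hin y' y'.2 v hv⟩ := by
      rintro y y' ⟨w⟩
      induction w with
      | @nil a => intro u v hu hv; exact hr1 a a.2 u v hu hv
      | @cons a b c hab w ih =>
        intro u v hu hv
        obtain ⟨s, hs, t, ht, hst⟩ := hB3 a b hab
        have h1 := hr1 a a.2 u s hu hs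
        have h2 : (G.induce (D x)).Adj ⟨s, hin a a.2 s hs⟩ ⟨t, hin b b.2 t ht⟩ := hst
        exact (h1.trans h2.reachable).trans (ih t v ht hv)
    obtain ⟨y0⟩ := (hA1 x).nonempty
    obtain ⟨v0⟩ := (hB1 y0).nonempty
    rw [connected_iff_exists_forall_reachable]
    refine ⟨⟨v0.1, hin _ y0.2 _ v0.2⟩, ?_⟩
    rintro ⟨v, y, hy, hv⟩
    exact hr2 y0 ⟨y, hy⟩ ((hA1 x).preconnected _ _) v0.1 v v0.2 hv
  · intro x y hxy
    rw [Set.disjoint_left]
    rintro v ⟨a, ha, hva⟩ ⟨b, hb, hvb⟩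
    have hab : a ≠ b := by
      rintro rfl
      exact Set.disjoint_left.1 (hA2 x y hxy) ha hb
    exact Set.disjoint_left.1 (hB2 a b hab) hva hvb
  · intro x y hxy
    obtain ⟨a, ha, b, hb, hab⟩ := hA3 x y hxy
    obtain ⟨u, hu, v, hv, huv⟩ := hB3 a b hab
    exact ⟨u, ⟨a, ha, hu⟩, v, ⟨b, hb, hv⟩, huv⟩

lemma minor_of_emb {V W : Type} {H : SimpleGraph W} {G : SimpleGraph V} (f : W → V)
    (hf : Function.Injective f) (h : ∀ x y, H.Adj x y → G.Adj (f x) (f y)) : IsMinor H G := by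
  refine ⟨fun x => {f x}, ?_, ?_, ?_⟩
  · intro x
    rw [connected_iff_exists_forall_reachable]
    refine ⟨⟨f x, rfl⟩, ?_⟩
    rintro ⟨w, rfl⟩
    exact Reachable.refl _
  · intro x y hxy
    exact Set.disjoint_singleton.2 (fun h => hxy (hf h))
  · intro x y hxy
    exact ⟨f x, rfl, f y, rfl, h x y hxy⟩


theorem t_TWN : S_TWN := by
  classical
  intro F V G k Gs hmax hcop hfree x y a b hab hxy hadj htw
  obtain ⟨z, hz, ⟨ψ⟩⟩ := htw
  set y' := ψ ⟨y, hxy⟩ with hy'
  have hzy' : G.Reachable z y'.1 := y'.2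
  have hnr : ¬ G.Reachable x y'.1 := fun h => hz (h.trans hzy'.symm)
  have hne : x ≠ y'.1 := by
    intro h
    exact hnr (h ▸ Reachable.refl _)
  have hnadj : ¬ G.Adj x y'.1 := fun h => hnr h.reachable
  have hzx : ¬ G.Reachable z x := fun h => hz h.symm
  apply hmax.2 x y'.1 hne hnadj
  intro H hH hminor
  refine hfree H hH (minor_trans hminor ?_)
  let f : V → V × Fin k := fun w =>
    if h : G.Reachable z w then ((ψ.symm ⟨w, h⟩).1, b) else (w, a)
  have f1 : ∀ w (h : G.Reachable z w), f w = ((ψ.symm ⟨w, h⟩).1, b) := fun w h => dif_pos h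
  have f2 : ∀ w (h : ¬ G.Reachable z w), f w = (w, a) := fun w h => dif_neg h
  refine minor_of_emb f ?_ ?_
  · intro u v huv
    by_cases hu : G.Reachable z u
    · by_cases hv : G.Reachable z v
      · rw [f1 u hu, f1 v hv] at huv
        have h1 : (ψ.symm ⟨u, hu⟩).1 = (ψ.symm ⟨v, hv⟩).1 := congrArg Prod.fst huv
        have h2 : ψ.symm ⟨u, hu⟩ = ψ.symm ⟨v, hv⟩ := Subtype.ext h1
        have h3 := ψ.symm.injective h2
        exact congrArg Subtype.val h3
      · rw [f1 u hu, f2 v hv] at huv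
        exact absurd (congrArg Prod.snd huv).symm hab
    · by_cases hv : G.Reachable z v
      · rw [f2 u hu, f1 v hv] at huv
        exact absurd (congrArg Prod.snd huv) hab
      · rw [f2 u hu, f2 v hv] at huv
        exact congrArg Prod.fst huv
  · intro u v huv
    rw [SimpleGraph.sup_adj, SimpleGraph.edge_adj] at huv
    have hE : Gs.Adj (f x) (f y'.1) := by
      rw [f2 x hzx, f1 y'.1 hzy']
      have : ψ.symm ⟨y'.1, hzy'⟩ = ⟨y, hxy⟩ := by
        have h0 : (⟨y'.1, hzy'⟩ : {w | G.Reachable z w}) = ψ ⟨y, hxy⟩ := rfl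
        rw [h0]
        exact ψ.symm_apply_apply _
      rw [this]
      exact hadj
    rcases huv with huv | ⟨huv, -⟩
    · by_cases hu : G.Reachable z u
      · have hv : G.Reachable z v := hu.trans huv.reachable
        rw [f1 u hu, f1 v hv]
        have h1 : (G.induce {w | G.Reachable z w}).Adj ⟨u, hu⟩ ⟨v, hv⟩ := huv
        have h2 : (G.induce {w | G.Reachable x w}).Adj (ψ.symm ⟨u, hu⟩) (ψ.symm ⟨v, hv⟩) :=
          ψ.symm.map_adj_iff.2 h1
        have h3 : G.Adj (ψ.symm ⟨u, hu⟩).1 (ψ.symm ⟨v, hv⟩).1 := h2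
        exact hcop (show (cop G k).Adj ((ψ.symm ⟨u, hu⟩).1, b) ((ψ.symm ⟨v, hv⟩).1, b) from ⟨rfl, h3⟩)
      · have hv : ¬ G.Reachable z v := fun h => hu (h.trans huv.symm.reachable)
        rw [f2 u hu, f2 v hv]
        exact hcop (show (cop G k).Adj (u, a) (v, a) from ⟨rfl, huv⟩)
    · rcases huv with ⟨rfl, rfl⟩ | ⟨rfl, rfl⟩
      · exact hE
      · exact hE.symm

end Run7.h860.GM.TWN
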